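import Pool.Agent.Lib.MP_a8252b_ag.Aut

/-!
# Coverings of the space of positive planes off the (-2)-mirrors and sublattices

`N = ℤ^n` is a lattice of signature `(2, n - 2)` with Gram matrix `A`. For the extended Néron-Severi
lattice of a K3 surface `X` the space `P_0^+(X)` is a path component of `P0 A ⊤`, and by a theorem of
Bridgeland the component `Stab(X)°` of the space of stability conditions is a connected covering of
`P_0^+(X)` with the group of the autoequivalences which preserve `Stab(X)°` and act trivially on
cohomology. The theorem is about all path connected coverings `S` with a group `G`.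

Proof.  The projection from `P0 A ⊤` to `P0 A N'` is surjective on fundamental groups with kernel
generated by the meridians off `N'` (see `Lib/MP_a8252b_ag/Mer2.lean`). The fundamental group of the
base maps onto `G`, isomorphically if `S` is simply connected, and meridians act as elements of
`merElts`.
-/

namespace Pool.Agent.Results.MP_a8252b_ag.AutQuotient

open Pool.Agent.MPa8252b

variable {n : ℕ}

/-- The space `P0 A ⊤` for the whole lattice. -/
def SpX (A : Matrix (Fin n) (Fin n) ℤ) : Type := Sp A ⊤

/-- The space `P0 A N'`. -/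
def SpN (A : Matrix (Fin n) (Fin n) ℤ) (N' : AddSubgroup (Fin n → ℤ)) : Type := Sp A N'

instance (A : Matrix (Fin n) (Fin n) ℤ) : TopologicalSpace (SpX A) :=
  inferInstanceAs (TopologicalSpace (Sp A ⊤))

instance (A : Matrix (Fin n) (Fin n) ℤ) (N' : AddSubgroup (Fin n → ℤ)) :
    TopologicalSpace (SpN A N') :=
  inferInstanceAs (TopologicalSpace (Sp A N'))

/-- The pair of vectors of a point of `SpX A`. -/
def prX {A : Matrix (Fin n) (Fin n) ℤ} (p : SpX A) : Pr n := Subtype.val p

/-- The pair of vectors of a point of `SpN A N'`. -/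
def prN {A : Matrix (Fin n) (Fin n) ℤ} {N' : AddSubgroup (Fin n → ℤ)} (p : SpN A N') : Pr n :=
  Subtype.val p

/-- `f` is the orthogonal projection to the real span of `N'`. -/
def IsProj {A : Matrix (Fin n) (Fin n) ℤ} {N' : AddSubgroup (Fin n → ℤ)}
    (f : SpX A → SpN A N') : Prop :=
  ∀ p, ∀ w ∈ rspan N', bf A ((prX p).1 - (prN (f p)).1) w = 0 ∧
    bf A ((prX p).2 - (prN (f p)).2) w = 0

/-- The path component of `e` in `SpX A`. -/
def Comp {A : Matrix (Fin n) (Fin n) ℤ} (e : SpX A) : Type := pathComponent e

instance {A : Matrix (Fin n) (Fin n) ℤ} (e : SpX A) : TopologicalSpace (Comp e) :=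
  inferInstanceAs (TopologicalSpace (pathComponent e))

/-- A point of the path component as a point of `SpX A`. -/
def toX {A : Matrix (Fin n) (Fin n) ℤ} {e : SpX A} (p : Comp e) : SpX A := Subtype.val p

/-- The elements of `G` which move some point `s` of `S` to `g s` along a lift of a meridian off
`N'`, that is of a loop `q + c e^{2πit} δ` around the mirror of a root `δ ∉ N'` in a meridian
disc. -/
def merElts (A : Matrix (Fin n) (Fin n) ℤ) (N' : AddSubgroup (Fin n → ℤ)) {e : SpX A}
    {S : Type} [TopologicalSpace S] (G : Type) [Group G] [MulAction G S] (p : S → Comp e) :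
    Set G :=
  {g | ∃ (s : S) (m : Path s (g • s)) (δ : Fin n → ℤ) (q : Pr n) (c : ℂ),
    MDisc A N' δ q ‖c‖ ∧ c ≠ 0 ∧ ∀ t : unitInterval,
    prX (toX (p (m t))) =
      disc q δ (c * Complex.exp (((2 * Real.pi * (t : ℝ) : ℝ) : ℂ) * Complex.I))}

/-- `ψ` maps the class of the projection of a loop, whose lift runs from `s` to `g s`, to the class
of `g⁻¹`. -/
def IsDeck {A : Matrix (Fin n) (Fin n) ℤ} {N' : AddSubgroup (Fin n → ℤ)} {e : SpX A}
    {S G : Type} [TopologicalSpace S] [Group G] [MulAction G S] (f : SpX A → SpN A N')
    (p : S → Comp e) (s : S) (ψ : FundamentalGroup (SpN A N') (f (toX (p s))) →*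
      G ⧸ Subgroup.normalClosure (merElts A N' G p)) : Prop :=
  ∀ (g : G) (m : Path s (g • s)) (l : Path (f (toX (p s))) (f (toX (p s)))),
    (∀ t, l t = f (toX (p (m t)))) → ψ (Path.Homotopic.Quotient.mk l) = (QuotientGroup.mk g)⁻¹

/-- The fundamental group of `P0 A N'` at the projection of `p s` maps onto the quotient of `G` by
the normal subgroup generated by the elements which belong to meridians off `N'`: the projection of
a loop whose lift runs from `s` to `g s` is mapped to the class of `g⁻¹`. This is an isomorphism if
`S` is simply connected. -/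
def MapsOnto {A : Matrix (Fin n) (Fin n) ℤ} {N' : AddSubgroup (Fin n → ℤ)} {e : SpX A}
    {S : Type} [TopologicalSpace S] (G : Type) [Group G] [MulAction G S] (f : SpX A → SpN A N')
    (p : S → Comp e) (s : S) : Prop :=
  ∃ ψ : FundamentalGroup (SpN A N') (f (toX (p s))) →*
      G ⧸ Subgroup.normalClosure (merElts A N' G p),
    Function.Surjective ψ ∧ IsDeck f p s ψ ∧ (SimplyConnectedSpace S → Function.Injective ψ)

/-- For every path connected covering `S` of a path component of `P0 A ⊤` with group `G` the
fundamental group of `P0 A N'` maps onto the quotient of `G` by the normal subgroup generated by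
the elements which belong to meridians off `N'`, isomorphically if `S` is simply connected. -/
theorem result (A : Matrix (Fin n) (Fin n) ℤ) (hA : A.IsSymm) (hs : Sig2 A)
    (N' : AddSubgroup (Fin n → ℤ)) (hN : HasPos A N') :
    ∃ f : C(SpX A, SpN A N'), IsProj f ∧ ∀ (e : SpX A) (S G : Type) [TopologicalSpace S]
      [PathConnectedSpace S] [Group G] [MulAction G S] (p : S → Comp e),
      IsQuotientCoveringMap p G → ∀ s : S, MapsOnto G f p s := by
  obtain ⟨π, hπ⟩ := exists_proj hA hs hN
  refine ⟨F hA hs hN hπ, fun p w hw => ⟨hπ.2 _ w hw, hπ.2 _ w hw⟩, ?_⟩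
  intro e S G _ _ _ _ p hp s
  exact aut_core hA hs hN hπ (e := e) (p := p) hp s

end Pool.Agent.Results.MP_a8252b_ag.AutQuotient
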