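import Pool.Agent.Lib.MP_a8252b_ag.Loc2

/-!
# Local fundamental groups at the (-2)-mirrors and coverings of the space of positive planes

`N = ℤ^n` is a lattice of signature `(2, n - 2)` with Gram matrix `A`. For the extended Néron-Severi
lattice of a K3 surface `X` the space `P_0^+(X)` is a path component of `SpX A`, and by a theorem of
Bridgeland the component `Stab(X)°` of the space of stability conditions is a connected covering of
`P_0^+(X)` with the group of the autoequivalences which preserve `Stab(X)°` and act trivially on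
cohomology. The theorem is about all simply connected coverings `S` with a group `G`: it gives
conditions on this group which are necessary for the simple connectivity of `Stab(X)°`.

Proof.  Let `p₀` be a positive pair. A small ball `B` around `p₀` meets only mirrors through `p₀`,
and scaling with centre `p₀` shows that the inclusion of `B ∩ P_0(N)` in the complement `Loc` of the
mirrors through `p₀` is a homotopy equivalence. It is the composition of the inclusions
`B ∩ P_0(N) → P_0(N) → Loc`. A meridian disc of a root which is not orthogonal to `p₀` lies in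
`Loc`.
-/

namespace Pool.Agent.Results.MP_a8252b_ag.LocalRetraction

open Pool.Agent.MPa8252b

variable {n : ℕ}

/-- The space `P0 A ⊤` for the whole lattice. -/
def SpX (A : Matrix (Fin n) (Fin n) ℤ) : Type := Sp A ⊤

instance (A : Matrix (Fin n) (Fin n) ℤ) : TopologicalSpace (SpX A) :=
  inferInstanceAs (TopologicalSpace (Sp A ⊤))

/-- The pair of vectors of a point of `SpX A`. -/
def prX {A : Matrix (Fin n) (Fin n) ℤ} (p : SpX A) : Pr n := Subtype.val p

/-- The complement of the mirrors of the roots orthogonal to `p₀` in the space of all pairs. -/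
def SpL (A : Matrix (Fin n) (Fin n) ℤ) (p₀ : Pr n) : Type := Loc A p₀

instance (A : Matrix (Fin n) (Fin n) ℤ) (p₀ : Pr n) : TopologicalSpace (SpL A p₀) :=
  inferInstanceAs (TopologicalSpace (Loc A p₀))

/-- The pair of vectors of a point of `SpL A p₀`. -/
def prL {A : Matrix (Fin n) (Fin n) ℤ} {p₀ : Pr n} (p : SpL A p₀) : Pr n := Subtype.val p

/-- A point of `SpX A` as a point of `SpL A p₀`. -/
def toL {A : Matrix (Fin n) (Fin n) ℤ} (p₀ : Pr n) (p : SpX A) : SpL A p₀ :=
  ⟨prX p, P0_sub_Loc p.2⟩

/-- The path component of `e` in `SpX A`. -/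
def Comp {A : Matrix (Fin n) (Fin n) ℤ} (e : SpX A) : Type := pathComponent e

instance {A : Matrix (Fin n) (Fin n) ℤ} (e : SpX A) : TopologicalSpace (Comp e) :=
  inferInstanceAs (TopologicalSpace (pathComponent e))

/-- A point of the path component as a point of `SpX A`. -/
def toX {A : Matrix (Fin n) (Fin n) ℤ} {e : SpX A} (p : Comp e) : SpX A := Subtype.val p

/-- The elements of `G` which move some point `t` of `S` to `g t` along a lift of a meridian
`q + c e^{2πiu} δ` around the mirror of a root `δ` which is not orthogonal to `p₀`. -/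
def merElts (A : Matrix (Fin n) (Fin n) ℤ) (p₀ : Pr n) {e : SpX A}
    {S : Type} [TopologicalSpace S] (G : Type) [Group G] [MulAction G S] (p : S → Comp e) :
    Set G :=
  {g | ∃ (s : S) (m : Path s (g • s)) (δ : Fin n → ℤ) (q : Pr n) (c : ℂ),
    MDisc A (orthLat A p₀) δ q ‖c‖ ∧ c ≠ 0 ∧ ∀ t : unitInterval,
    prX (toX (p (m t))) =
      disc q δ (c * Complex.exp (((2 * Real.pi * (t : ℝ) : ℝ) : ℂ) * Complex.I))}

/-- `ρ g⁻¹` is the class of the projection to `SpL A p₀` of the paths from `s` to `g s`. -/
def IsMonodromy {A : Matrix (Fin n) (Fin n) ℤ} {e : SpX A} {S G : Type} [TopologicalSpace S]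
    [Group G] [MulAction G S] (p₀ : Pr n) (p : S → Comp e) (s : S)
    (ρ : G →* FundamentalGroup (SpL A p₀) (toL p₀ (toX (p s)))) : Prop :=
  ∀ (g : G) (m : Path s (g • s)) (l : Path (toL p₀ (toX (p s))) (toL p₀ (toX (p s)))),
    (∀ t, prL (l t) = prX (toX (p (m t)))) → ρ g⁻¹ = Path.Homotopic.Quotient.mk l

/-- For a point `s` over the ball of radius `ε` around `p₀` the projection of paths gives a
homomorphism from `G` to the fundamental group of `SpL A p₀` which maps `merElts` to `1` and has a
right inverse `θ`, where `s` can be joined to `(θ x)⁻¹ s` over the ball. -/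
def HasRetraction {A : Matrix (Fin n) (Fin n) ℤ} {e : SpX A} {S : Type} [TopologicalSpace S]
    (G : Type) [Group G] [MulAction G S] (p₀ : Pr n) (ε : ℝ) (p : S → Comp e) (s : S) : Prop :=
  ∃ (ρ : G →* FundamentalGroup (SpL A p₀) (toL p₀ (toX (p s))))
    (θ : FundamentalGroup (SpL A p₀) (toL p₀ (toX (p s))) →* G),
    IsMonodromy p₀ p s ρ ∧ (∀ x, ρ (θ x) = x) ∧
    (∀ x, ∃ m : Path s ((θ x)⁻¹ • s), ∀ t, prX (toX (p (m t))) ∈ Metric.ball p₀ ε) ∧
    ∀ g ∈ merElts A p₀ G p, ρ g = 1

/-- Let `p₀` be a positive pair. If `S` is a simply connected covering with group `G` of a path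
component of `P_0(N)`, then the fundamental group of the complement of the mirrors through `p₀` is
a retract of `G`, embedded by paths over a small ball around `p₀`, and the retraction kills the
meridian elements of all roots not orthogonal to `p₀`. -/
theorem result (A : Matrix (Fin n) (Fin n) ℤ) (hA : A.IsSymm) (hs : Sig2 A) (p₀ : Pr n)
    (hp₀ : Pos A p₀.1 p₀.2) :
    ∃ r : ℝ, 0 < r ∧ ∀ ε : ℝ, 0 < ε → ε ≤ r → ∀ (e : SpX A) (S G : Type) [TopologicalSpace S]
      [SimplyConnectedSpace S] [Group G] [MulAction G S] (p : S → Comp e),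
      IsQuotientCoveringMap p G → ∀ s : S, prX (toX (p s)) ∈ Metric.ball p₀ ε →
        HasRetraction G p₀ ε p s := by
  obtain ⟨r, hr, h⟩ := exists_small hA hs hp₀
  refine ⟨r, hr, fun ε h0 hε e S G _ _ _ _ p hp s hs' => ?_⟩
  obtain ⟨ρ, θ, h1, h2, h3, h4⟩ := loc_core (h ε h0 hε) (e := e) (p := p) hp s hs'
  exact ⟨ρ, θ, h1, h2, h3, h4⟩

end Pool.Agent.Results.MP_a8252b_ag.LocalRetraction
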