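import Pool.Agent.Lib.MP_a8252b_ag.Neg3

/-!
# Coverings of the space of positive planes off the (-2)-mirrors and negative definite subgroups

`N = ℤ^n` is a lattice of signature `(2, n - 2)` with Gram matrix `A`. For the extended Néron-Severi
lattice of a K3 surface `X` the space `P_0^+(X)` is a path component of `SpX A`, and by a theorem of
Bridgeland the component `Stab(X)°` of the space of stability conditions is a connected covering of
`P_0^+(X)` with the group of the autoequivalences which preserve `Stab(X)°` and act trivially on
cohomology. The theorem is about all path connected coverings `S` with a group `G`.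

Proof.  Let `Λ` be a subgroup of `N` with negative definite real span. The fundamental group of
`P_0(N)` maps onto the one of the space of the positive pairs on no mirror of a root of `Λ`, and the
kernel is generated by meridians. This space is homotopy equivalent to the product of the
complement of the mirrors of `Λ` and the space of all positive pairs: the inverse maps `(v, u)` to
the sum of the component of `u` orthogonal to `Λ` and a small multiple of the component of `v` in
the span of `Λ`.
-/

namespace Pool.Agent.Results.MP_a8252b_ag.NegativeQuotient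

open Pool.Agent.MPa8252b

variable {n : ℕ}

/-- The space `P0 A ⊤` for the whole lattice. -/
def SpX (A : Matrix (Fin n) (Fin n) ℤ) : Type := Sp A ⊤

instance (A : Matrix (Fin n) (Fin n) ℤ) : TopologicalSpace (SpX A) :=
  inferInstanceAs (TopologicalSpace (Sp A ⊤))

/-- The pair of vectors of a point of `SpX A`. -/
def prX {A : Matrix (Fin n) (Fin n) ℤ} (p : SpX A) : Pr n := Subtype.val p

/-- The complement of the mirrors of the roots of `Λ` in the space of all pairs. -/
def SpL (A : Matrix (Fin n) (Fin n) ℤ) (Λ : AddSubgroup (Fin n → ℤ)) : Type := LocN A Λ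

instance (A : Matrix (Fin n) (Fin n) ℤ) (Λ : AddSubgroup (Fin n → ℤ)) :
    TopologicalSpace (SpL A Λ) :=
  inferInstanceAs (TopologicalSpace (LocN A Λ))

/-- The space of all positive pairs. -/
def SpP (A : Matrix (Fin n) (Fin n) ℤ) : Type := PosS A

instance (A : Matrix (Fin n) (Fin n) ℤ) : TopologicalSpace (SpP A) :=
  inferInstanceAs (TopologicalSpace (PosS A))

/-- The point `x` of `SpX A` as a point of `SpL A Λ` and of `SpP A`. -/
def two {A : Matrix (Fin n) (Fin n) ℤ} (Λ : AddSubgroup (Fin n → ℤ)) (x : SpX A) :
    SpL A Λ × SpP A :=
  (⟨prX x, (P0_top_subset A Λ x.2).2⟩, ⟨prX x, x.2.2.2.1⟩)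

/-- The path component of `e` in `SpX A`. -/
def Comp {A : Matrix (Fin n) (Fin n) ℤ} (e : SpX A) : Type := pathComponent e

instance {A : Matrix (Fin n) (Fin n) ℤ} (e : SpX A) : TopologicalSpace (Comp e) :=
  inferInstanceAs (TopologicalSpace (pathComponent e))

/-- A point of the path component as a point of `SpX A`. -/
def toX {A : Matrix (Fin n) (Fin n) ℤ} {e : SpX A} (p : Comp e) : SpX A := Subtype.val p

/-- The elements of `G` which move some point `s` of `S` to `g s` along a lift of a meridian off
`Λ`, that is of a loop `q + c e^{2πit} δ` around the mirror of a root `δ ∉ Λ` in a meridian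
disc. -/
def merElts (A : Matrix (Fin n) (Fin n) ℤ) (Λ : AddSubgroup (Fin n → ℤ)) {e : SpX A}
    {S : Type} [TopologicalSpace S] (G : Type) [Group G] [MulAction G S] (p : S → Comp e) :
    Set G :=
  {g | ∃ (s : S) (m : Path s (g • s)) (δ : Fin n → ℤ) (q : Pr n) (c : ℂ),
    MDisc A Λ δ q ‖c‖ ∧ c ≠ 0 ∧ ∀ t : unitInterval,
    prX (toX (p (m t))) =
      disc q δ (c * Complex.exp (((2 * Real.pi * (t : ℝ) : ℝ) : ℂ) * Complex.I))}

/-- `ψ` maps the class of the projection of a path from `s` to `g s` to the class of `g⁻¹`. -/
def IsDeck {A : Matrix (Fin n) (Fin n) ℤ} {Λ : AddSubgroup (Fin n → ℤ)} {e : SpX A}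
    {S G : Type} [TopologicalSpace S] [Group G] [MulAction G S] (p : S → Comp e) (s : S)
    (ψ : FundamentalGroup (SpL A Λ × SpP A) (two Λ (toX (p s))) →*
      G ⧸ Subgroup.normalClosure (merElts A Λ G p)) : Prop :=
  ∀ (g : G) (m : Path s (g • s)) (l : Path (two Λ (toX (p s))) (two Λ (toX (p s)))),
    (∀ t, l t = two Λ (toX (p (m t)))) →
      ψ (Path.Homotopic.Quotient.mk l) = (QuotientGroup.mk g)⁻¹

/-- The fundamental group of `SpL A Λ × SpP A` maps onto the quotient of `G` by the normal subgroup
generated by the elements which belong to meridians off `Λ`. This is an isomorphism if `S` is simply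
connected. -/
def MapsOnto {A : Matrix (Fin n) (Fin n) ℤ} (Λ : AddSubgroup (Fin n → ℤ)) {e : SpX A}
    {S : Type} [TopologicalSpace S] (G : Type) [Group G] [MulAction G S] (p : S → Comp e)
    (s : S) : Prop :=
  ∃ ψ : FundamentalGroup (SpL A Λ × SpP A) (two Λ (toX (p s))) →*
      G ⧸ Subgroup.normalClosure (merElts A Λ G p),
    Function.Surjective ψ ∧ IsDeck p s ψ ∧ (SimplyConnectedSpace S → Function.Injective ψ)

/-- Let `Λ` be a subgroup with negative definite real span. For every path connected covering `S`
of a path component of `P_0(N)` with group `G` the quotient of `G` by the normal subgroup generated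
by the elements which belong to meridians off `Λ` is a quotient of the fundamental group of the
product of the complement of the mirrors of `Λ` and the space of positive pairs, and it is
isomorphic to this group if `S` is simply connected. -/
theorem result (A : Matrix (Fin n) (Fin n) ℤ) (hA : A.IsSymm) (hs : Sig2 A)
    (Λ : AddSubgroup (Fin n → ℤ)) (hΛ : NegDef A Λ) (e : SpX A) (S G : Type)
    [TopologicalSpace S] [PathConnectedSpace S] [Group G] [MulAction G S] (p : S → Comp e)
    (hp : IsQuotientCoveringMap p G) (s : S) : MapsOnto Λ G p s :=
  neg_core hA hs hΛ (e := e) (p := p) hp s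

end Pool.Agent.Results.MP_a8252b_ag.NegativeQuotient
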