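import Pool.Agent.Lib.MP_a8252b_ag.Mer2

/-!
# Fundamental groups of the spaces of positive planes off the (-2)-mirrors

`N = ℤ^n` is a lattice of signature `(2, n - 2)` with Gram matrix `A`; for the extended Néron-Severi
lattice `N = N(X)` of a K3 surface, `P0 A ⊤` is the set of `Ω = x + iy` in `N(X) ⊗ ℂ` whose real and
imaginary part span a positive plane and which are orthogonal to no vector of square `-2`.

Proof.  A loop in `P0 A N'` is first moved to a loop of positive pairs off the mirrors of `N'` with
the given base point, then approximated by a differentiable one and perturbed generically, so that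
it avoids all mirrors, which have codimension two.  A homotopy in the positive pairs off the mirrors
of `N'` is perturbed so that it avoids the intersections of two mirrors, which have codimension
four, and is then cut into small pieces; a loop near one mirror is a power of a meridian.
-/

namespace Pool.Agent.Results.MP_a8252b_ag.SpecialisationMap

open Pool.Agent.MPa8252b

variable {n : ℕ}

/-- The space `P0 A ⊤` for the whole lattice. -/
def SpX (A : Matrix (Fin n) (Fin n) ℤ) : Type := Sp A ⊤

/-- The space `P0 A N'`. -/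
def SpN (A : Matrix (Fin n) (Fin n) ℤ) (N' : AddSubgroup (Fin n → ℤ)) : Type := Sp A N'

instance (A : Matrix (Fin n) (Fin n) ℤ) : TopologicalSpace (SpX A) :=
  inferInstanceAs (TopologicalSpace (Sp A ⊤))

instance (A : Matrix (Fin n) (Fin n) ℤ) (N' : AddSubgroup (Fin n → ℤ)) :
    TopologicalSpace (SpN A N') :=
  inferInstanceAs (TopologicalSpace (Sp A N'))

/-- The pair of vectors of a point of `SpX A`. -/
def prX {A : Matrix (Fin n) (Fin n) ℤ} (p : SpX A) : Pr n := Subtype.val p

/-- The pair of vectors of a point of `SpN A N'`. -/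
def prN {A : Matrix (Fin n) (Fin n) ℤ} {N' : AddSubgroup (Fin n → ℤ)} (p : SpN A N') : Pr n :=
  Subtype.val p

/-- `f` is the orthogonal projection to the real span of `N'`. -/
def IsProj {A : Matrix (Fin n) (Fin n) ℤ} {N' : AddSubgroup (Fin n → ℤ)}
    (f : SpX A → SpN A N') : Prop :=
  ∀ p, ∀ w ∈ rspan N', bf A ((prX p).1 - (prN (f p)).1) w = 0 ∧
    bf A ((prX p).2 - (prN (f p)).2) w = 0

/-- `l` is a meridian off `N'`: a loop `p + c e^{2πit} δ` around the mirror of a root `δ ∉ N'`, such
that the disc of the `p + w δ`, `|w| ≤ |c|`, is a meridian disc. -/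
def IsMer (A : Matrix (Fin n) (Fin n) ℤ) (N' : AddSubgroup (Fin n → ℤ)) {z : SpX A}
    (l : Path z z) : Prop :=
  ∃ (δ : Fin n → ℤ) (p : Pr n) (c : ℂ), MDisc A N' δ p ‖c‖ ∧ c ≠ 0 ∧ ∀ t : unitInterval,
    prX (l t) = disc p δ (c * Complex.exp (((2 * Real.pi * (t : ℝ) : ℝ) : ℂ) * Complex.I))

/-- The classes of the loops which run along a path, around a meridian and back. -/
def merClasses (A : Matrix (Fin n) (Fin n) ℤ) (N' : AddSubgroup (Fin n → ℤ)) (e : SpX A) :
    Set (FundamentalGroup (SpX A) e) :=
  {g | ∃ (z : SpX A) (c : Path e z) (l : Path z z), IsMer A N' l ∧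
    g = Path.Homotopic.Quotient.mk ((c.trans l).trans c.symm)}

/-- The inclusion of `SpN A N'` into `SpX A` is defined, continuous and a section of `f`. -/
def HasSection {A : Matrix (Fin n) (Fin n) ℤ} {N' : AddSubgroup (Fin n → ℤ)}
    (f : SpX A → SpN A N') : Prop :=
  ∃ j : SpN A N' → SpX A, Continuous j ∧ ∀ p, prX (j p) = prN p ∧ f (j p) = p

/-- The orthogonal projection to a sublattice with a positive plane maps `P0` to `P0`; it is
surjective on fundamental groups and its kernel is generated by the loops which run along a path,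
around a meridian off `N'` and back. If the projections of the further roots are nonzero of nonnegative
square, the inclusion is a section. -/
theorem result (A : Matrix (Fin n) (Fin n) ℤ) (hA : A.IsSymm) (hs : Sig2 A)
    (N' : AddSubgroup (Fin n → ℤ)) (hN : HasPos A N') :
    ∃ f : C(SpX A, SpN A N'), IsProj f ∧
      (∀ e, Function.Surjective (FundamentalGroup.map f e) ∧
        (FundamentalGroup.map f e).ker = Subgroup.closure (merClasses A N' e)) ∧
      (FarRoots A N' → HasSection f) := by
  obtain ⟨π, hπ⟩ := exists_proj hA hs hN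
  refine ⟨F hA hs hN hπ, fun p w hw => ⟨hπ.2 _ w hw, hπ.2 _ w hw⟩, fun e => ⟨?_, ?_⟩, ?_⟩
  · intro x
    obtain ⟨γ, hγ⟩ := Path.Homotopic.Quotient.mk_surjective (X := Sp A N') x
    obtain ⟨γ', h⟩ := loop_surj hA hs hN hπ e γ
    refine ⟨Path.Homotopic.Quotient.mk γ', ?_⟩
    rw [← hγ]
    exact Path.Homotopic.Quotient.eq.2 h
  · exact ker_eq_mers hA hs hN hπ e
  · intro hroot
    have hmem : ∀ p : Sp A N', p.1 ∈ P0 A ⊤ := by
      rintro ⟨⟨x, y⟩, hx, hy, hpos, hr⟩
      refine ⟨?_, ?_, hpos, ?_⟩
      · rw [rspan_top]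
        trivial
      · rw [rspan_top]
        trivial
      intro δ _ hδ hcon
      by_cases hδN : δ ∈ N'
      · exact hr δ hδN hδ hcon
      · obtain ⟨d, hd, hproj, h0, h1⟩ := hroot δ hδ hδN
        have key : ∀ z ∈ rspan N', bf A z d = bf A z (rl δ) := by
          intro z hz
          have h2 := hproj z hz
          rw [bf_symm hA, map_sub, sub_eq_zero] at h2
          exact h2.symm
        have h3 := neg_of_orth hA hs hpos (v := d) (by rw [key x hx]; exact hcon.1)
          (by rw [key y hy]; exact hcon.2) h0
        exact absurd h1 (not_le.2 h3)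
    have hj : Continuous fun p : Sp A N' => (⟨p.1, hmem p⟩ : Sp A ⊤) :=
      Continuous.subtype_mk continuous_subtype_val _
    refine ⟨fun p => (⟨p.1, hmem p⟩ : Sp A ⊤), hj, fun p => ⟨rfl, ?_⟩⟩
    apply Subtype.ext
    refine Prod.ext ?_ ?_
    · exact proj_eq hA hs hN hπ p.2.1
    · exact proj_eq hA hs hN hπ p.2.2.1

end Pool.Agent.Results.MP_a8252b_ag.SpecialisationMap
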